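import Pool.Agent.W739.CY.Stm

/-!
# T1: decomposition at the first arrival
-/

set_option autoImplicit false

namespace Pool.Agent.W351.CY

open Pool.Agent.W739.CY

section

variable {C : Type} [DecidableEq C]

theorem spl_nil (f : List C → C → List C → ℝ) : spl f [] = 0 := rfl

theorem spl_cons (f : List C → C → List C → ℝ) (x : C) (w : List C) :
    spl f (x :: w) = f [] x w + spl (fun v c u => f (x :: v) c u) w := rfl

theorem spl_congr : ∀ (w : List C) (f g : List C → C → List C → ℝ),
    (∀ v c u, w = v ++ c :: u → f v c u = g v c u) → spl f w = spl g w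
  | [], _, _, _ => rfl
  | x :: w, f, g, h => by
      rw [spl_cons, spl_cons, h [] x w rfl,
        spl_congr w (fun v c u => f (x :: v) c u) (fun v c u => g (x :: v) c u)
          (fun v c u hw => h (x :: v) c u (by rw [hw]; rfl))]

theorem spl_add : ∀ (w : List C) (f g : List C → C → List C → ℝ),
    spl (fun v c u => f v c u + g v c u) w = spl f w + spl g w
  | [], _, _ => by rw [spl_nil, spl_nil, spl_nil, add_zero]
  | x :: w, f, g => by
      rw [spl_cons, spl_cons, spl_cons,
        spl_add w (fun v c u => f (x :: v) c u) (fun v c u => g (x :: v) c u)]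
      ring

theorem spl_mul : ∀ (w : List C) (r : ℝ) (f : List C → C → List C → ℝ),
    spl (fun v c u => r * f v c u) w = r * spl f w
  | [], _, _ => by rw [spl_nil, spl_nil, mul_zero]
  | x :: w, r, f => by
      rw [spl_cons, spl_cons, spl_mul w r (fun v c u => f (x :: v) c u)]
      ring

theorem spl_zero : ∀ (w : List C) (f : List C → C → List C → ℝ),
    (∀ v c u, w = v ++ c :: u → f v c u = 0) → spl f w = 0
  | [], _, _ => rfl
  | x :: w, f, h => by
      rw [spl_cons, h [] x w rfl, spl_zero w (fun v c u => f (x :: v) c u)
        (fun v c u hw => h (x :: v) c u (by rw [hw]; rfl)), add_zero]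

theorem spl_append : ∀ (v u : List C) (g : List C → C → List C → ℝ),
    spl g (v ++ u) = spl (fun v1 c v2 => g v1 c (v2 ++ u)) v + spl (fun u1 c u2 => g (v ++ u1) c u2) u
  | [], u, g => by
      rw [spl_nil, zero_add]
      rfl
  | x :: v, u, g => by
      rw [List.cons_append, spl_cons, spl_cons, spl_append v u (fun v c u => g (x :: v) c u)]
      simp only [List.cons_append]
      ring

/-- exchange of two choices of letters -/
theorem spl_exch : ∀ (w : List C) (h : List C → C → List C → C → List C → ℝ),
    spl (fun v d u => spl (fun v1 c v2 => h v1 c v2 d u) v) w =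
      spl (fun v1 c t => spl (fun v2 d u => h v1 c v2 d u) t) w
  | [], _ => rfl
  | x :: w, h => by
      rw [spl_cons, spl_nil, spl_cons, zero_add]
      simp only [spl_cons]
      rw [spl_add w (fun v d u => h [] x v d u)
        (fun v d u => spl (fun v1 c v2 => h (x :: v1) c v2 d u) v),
        spl_exch w (fun v1 => h (x :: v1))]

theorem Pr_split : ∀ (a : Option C) (v : List C) (c : C) (u : List C) (b : Option C),
    Pr a (v ++ c :: u) b ↔ Pr a v (some c) ∧ Pr (some c) u b
  | a, [], c, u, b => by
      show (ok a (some c) ∧ Pr (some c) u b) ↔ (ok a (some c) ∧ Pr (some c) u b)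
      exact Iff.rfl
  | a, x :: v, c, u, b => by
      show (ok a (some x) ∧ Pr (some x) (v ++ c :: u) b) ↔
        ((ok a (some x) ∧ Pr (some x) v (some c)) ∧ Pr (some c) u b)
      rw [Pr_split (some x) v c u b, and_assoc]

end

/-- T1 -/
theorem t_T1 (hDEL : S_DEL) : S_T1 := by
  intro C _ p hp a b w0 hw0 hab
  have h1 : ∀ a b : Option C, F p a ([] : List C) b = (if ok a b then 1 else 0) :=
    fun a b => (hDEL C p hp a b).1
  have h2 : ∀ (a b : Option C) (w : List C), ¬ Pr a w b → F p a w b = 0 :=
    fun a b => (hDEL C p hp a b).2.1
  have h4 : ∀ (a b : Option C) (w : List C), Pr a w b →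
      (1 - p ^ w.length) * F p a w b = spl (fun v _ u => p ^ u.length * F p a (v ++ u) b) w := by
    intro a b w hw
    by_cases h : w = []
    · subst h
      rw [spl_nil]; simp
    · exact (hDEL C p hp a b).2.2.2.1 w h hw
  -- the identity for the double sum
  have hstar : ∀ w : List C, Pr a w b →
      spl (fun v _ u => p ^ u.length *
        spl (fun v c u => p ^ v.length * F p a v (some c) * F p (some c) u b) (v ++ u)) w =
      (1 - p ^ (w.length - 1)) *
        spl (fun v c u => p ^ v.length * F p a v (some c) * F p (some c) u b) w := by
    intro w hw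
    have e1 : spl (fun v _ u => p ^ u.length *
        spl (fun v c u => p ^ v.length * F p a v (some c) * F p (some c) u b) (v ++ u)) w =
        spl (fun v _ u => spl (fun v1 c v2 => p ^ u.length *
          (p ^ v1.length * F p a v1 (some c) * F p (some c) (v2 ++ u) b)) v) w +
        spl (fun v _ u => spl (fun u1 c u2 => p ^ u.length *
          (p ^ (v ++ u1).length * F p a (v ++ u1) (some c) * F p (some c) u2 b)) u) w := by
      rw [← spl_add]
      apply spl_congr
      intro v c u _
      rw [spl_append, mul_add, spl_mul, spl_mul]
    have e2 : spl (fun v _ u => spl (fun v1 c v2 => p ^ u.length *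
          (p ^ v1.length * F p a v1 (some c) * F p (some c) (v2 ++ u) b)) v) w =
        spl (fun v c t => p ^ v.length * F p a v (some c) *
          ((1 - p ^ t.length) * F p (some c) t b)) w := by
      rw [spl_exch w (fun v1 c v2 _ u => p ^ u.length *
          (p ^ v1.length * F p a v1 (some c) * F p (some c) (v2 ++ u) b))]
      apply spl_congr
      intro v c t hwt
      have hpr : Pr (some c) t b := by
        rw [hwt] at hw
        exact ((Pr_split a v c t b).1 hw).2
      rw [h4 (some c) b t hpr, ← spl_mul]
      apply spl_congr
      intro v2 d u _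
      ring
    have e3 : spl (fun v _ u => spl (fun u1 c u2 => p ^ u.length *
          (p ^ (v ++ u1).length * F p a (v ++ u1) (some c) * F p (some c) u2 b)) u) w =
        spl (fun s c u2 => p ^ (u2.length + s.length) * F p (some c) u2 b *
          ((1 - p ^ s.length) * F p a s (some c))) w := by
      have e4 : spl (fun v _ u => spl (fun u1 c u2 => p ^ u.length *
          (p ^ (v ++ u1).length * F p a (v ++ u1) (some c) * F p (some c) u2 b)) u) w =
          spl (fun v _ u => spl (fun u1 c u2 => p ^ (u1.length + 1 + u2.length) *
          (p ^ (v ++ u1).length * F p a (v ++ u1) (some c) * F p (some c) u2 b)) u) w := by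
        apply spl_congr
        intro v d u _
        apply spl_congr
        intro u1 c u2 hu
        have : u.length = u1.length + 1 + u2.length := by
          rw [hu, List.length_append, List.length_cons]; ring
        rw [this]
      rw [e4, ← spl_exch w (fun v _ u1 c u2 => p ^ (u1.length + 1 + u2.length) *
          (p ^ (v ++ u1).length * F p a (v ++ u1) (some c) * F p (some c) u2 b))]
      apply spl_congr
      intro s c u2 hws
      have hpr : Pr a s (some c) := by
        rw [hws] at hw
        exact ((Pr_split a s c u2 b).1 hw).1
      rw [h4 a (some c) s hpr, ← spl_mul]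
      apply spl_congr
      intro v d u1 hs
      have hl : s.length = v.length + 1 + u1.length := by
        rw [hs, List.length_append, List.length_cons]; ring
      rw [hl, List.length_append]
      ring
    rw [e1, e2, e3, ← spl_add, ← spl_mul]
    apply spl_congr
    intro v c u hwv
    have hl : w.length - 1 = v.length + u.length := by
      rw [hwv, List.length_append, List.length_cons]; omega
    rw [hl]
    ring
  -- improper words
  have himp : ∀ w : List C, ¬ Pr a w b →
      spl (fun v c u => p ^ v.length * F p a v (some c) * F p (some c) u b) w = 0 := by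
    intro w hw
    apply spl_zero
    intro v c u hwv
    by_cases ha : Pr a v (some c)
    · have hb : ¬ Pr (some c) u b := by
        intro hb
        apply hw
        rw [hwv]
        exact (Pr_split a v c u b).2 ⟨ha, hb⟩
      rw [h2 _ _ _ hb, mul_zero]
    · rw [h2 _ _ _ ha]; ring
  have main : ∀ (n : ℕ) (w : List C), w.length = n + 1 →
      (1 - p ^ w.length) * F p a w b =
        spl (fun v c u => p ^ v.length * F p a v (some c) * F p (some c) u b) w := by
    intro n
    induction n with
    | zero =>
      intro w hw
      obtain ⟨c, rfl⟩ := List.length_eq_one_iff.1 hw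
      by_cases hpr : Pr a [c] b
      · have hok : ok a (some c) ∧ ok (some c) b := hpr
        rw [h4 a b [c] hpr, spl_cons, spl_cons, spl_nil, spl_nil]
        show p ^ 0 * F p a [] b + 0 = p ^ 0 * F p a [] (some c) * F p (some c) [] b + 0
        rw [h1, h1, h1, if_pos hab, if_pos hok.1, if_pos hok.2]
        ring
      · rw [himp _ hpr, h2 _ _ _ hpr, mul_zero]
    | succ n ih =>
      intro w hw
      by_cases hpr : Pr a w b
      · have hne : 1 - p ^ (w.length - 1) ≠ 0 := by
          rw [hw]
          exact hp.sub n
        apply mul_left_cancel₀ hne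
        rw [← hstar w hpr, h4 a b w hpr, ← spl_mul]
        apply spl_congr
        intro v d u hwv
        have hl : (v ++ u).length = n + 1 := by
          have : w.length = v.length + (u.length + 1) := by
            rw [hwv, List.length_append, List.length_cons]
          rw [List.length_append]
          omega
        have hl' : w.length - 1 = (v ++ u).length := by
          rw [hl, hw]; rfl
        rw [← ih (v ++ u) hl, hl']
        ring
      · rw [himp _ hpr, h2 _ _ _ hpr, mul_zero]
  obtain ⟨n, hn⟩ : ∃ n, w0.length = n + 1 :=
    Nat.exists_eq_succ_of_ne_zero (fun h => hw0 (List.length_eq_zero_iff.1 h))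
  exact main n w0 hn

end Pool.Agent.W351.CY
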